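import Pool.Agent.W997.LZ.Final

/-!
# The depth law for lazily evaluated circuits

Formulas and circuits can be evaluated lazily from left to right: the second operand of a
conjunction is not evaluated if the first one is false, and the second operand of a disjunction is
not evaluated if the first one is true.  (For formulas the order of evaluation is no restriction,
since the operands may be exchanged.)  We consider circuits whose lazy evaluation looks at few
different input bits.

The functions are the lowest bits of the values at the roots of the unrolled De Bruijn graph of
height `h`, that is, of an `h`-fold composition of multiplexers with shared arguments: the nodes of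
height `j ≤ h` are the pairs of a word and a letter, the children of a node are the nodes of the
next smaller height whose words arise by shifting, and every inner node has a table indexed by the
tuples of values of its children.  With `N` the number of variables (each has `O(log N)` bits) we
show for all heights `1 ≤ h ≤ 2 ^ p`, where `2 ^ p ≥ N ^ c`:

* there are Boolean circuits of size `N ^ 2` and depth `5 * h * log N` whose lazy evaluation looks
  only at `N ^ δ` bits;
* but circuits of depth `c * h * log N`, and even formulas with `N ^ (c * h)` leaves, which are
  right on slightly more than half of the inputs look at `N ^ (1 - δ)` bits, on average.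

So the depth of circuits with a thrifty lazy evaluation is `Θ(h log N)`, super-logarithmic if `h` is
unbounded, and up to `N ^ c`.

Proof idea.  The lazy evaluation of a formula with `L` leaves is a branching program with `L`
states, which is subject to the law for branching programs which read few variables.  The
simulation of the De Bruijn graph by circuits with one gate for each prefix of a guess of the
values of the children is arranged in such a way that only the entries at the true values are
looked at.
-/

set_option autoImplicit false

namespace Pool.Agent.Results.MP_027d00_lc.LazyDepthLaw

open Finset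
open Pool.Agent.W997.DB Pool.Agent.W997.LZ

/-- For every `δ > 0` there are `D`, `ℓ₁`, `c > 0` and `p₀` such that for all `p ≥ p₀` and all
`1 ≤ h ≤ 2 ^ p`, with `ℓ = ℓ₁ * p`, alphabet `Fin (2 ^ ℓ)` and `N` the number of variables of the
unrolled De Bruijn graph of height `h` over words of length `2 * p + 1` (then `N ^ c ≤ 2 ^ p`), the
lowest bit of the value of every root

* is computed by Boolean circuits (over the bits of the variables) of size at most `N ^ 2` and
  depth at most `5 * h * log N` whose lazy evaluation looks, on every input, at most at `N ^ δ`
  different bits,
* but every Boolean formula with at most `N ^ (c * h)` leaves, and every Boolean circuit of depth at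
  most `c * h * log N`, which gives the right answer on a fraction of at least `1 / 2 + N ^ (-c)`
  of the inputs looks, if it is evaluated lazily, on average at least at `N ^ (1 - δ)` different
  bits. -/
theorem result : ∀ δ : ℝ, 0 < δ → ∃ D ℓ₁ : ℕ, 2 ≤ D ∧ 1 ≤ ℓ₁ ∧ ∃ c : ℝ, 0 < c ∧ ∃ p₀ : ℕ,
    ∀ p : ℕ, p₀ ≤ p → ∀ h : ℕ, 1 ≤ h → h ≤ 2 ^ p → ∀ ℓ : ℕ, ℓ = ℓ₁ * p → ∀ N : ℝ,
    N = Fintype.card (Var D (2 * p) h (2 ^ ℓ)) → N ^ c ≤ 2 ^ p ∧
      ∀ (g : Word D (2 * p)) (i : Fin D) (f : Input D (2 * p) h (2 ^ ℓ) → Bool),
      f = rootBit g i →
      ByLazyCircuit f (N ^ 2) (5 * h * Real.log N) (N ^ δ) ∧
      HardForLazyFormulas f (N ^ (c * h)) (N ^ (-c)) (N ^ (1 - δ)) ∧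
      HardForLazyCircuits f (c * h * Real.log N) (N ^ (-c)) (N ^ (1 - δ)) :=
  fun δ hδ => lazy_stmt δ hδ

end Pool.Agent.Results.MP_027d00_lc.LazyDepthLaw
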