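import Pool.Agent.W953.PD.Num
import Pool.Agent.W953.FN.Circ

/-!
# A language in P that needs almost linearly many NOT gates in formulas of polynomial size

There is a language `L` of a two-way deterministic pushdown automaton with one head (so `L` is in P)
and for every `n` there are tags of the `n` positions such that `L` is monotone in the `n` bits, but

* no formula of polynomial size with `t` NOT gates, and
* no circuit of depth `O(log n)` with `log t` NOT gates

agrees with `L` on the inputs with between `k` and `k + U` ones, if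
`t C log n (log log n) ^ 8 ≤ U ≤ n - k` and `t C (log n (log log n) ^ 8) ^ 2 ≤ n`. With `n` NOT gates
in formulas, or `log n + 1` NOT gates in circuits, this would be the question itself (all inputs,
`U = n`).

A circuit with `t` NOT gates is a computation with `t` tests, one after the other, each of which is
a monotone formula with `2 ^ depth` leaves; a formula with `t` NOT gates is an arbitrary function of
`5 t + 1` monotone formulas with twice as many leaves together. A chain of rejected inputs is built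
copy by copy for an OR of disjoint copies of a lifted pebbling function; if in some copy no rejected
input changes the answers to the tests, then the OR of the tests that were `0` is a monotone formula
for the copy, which contradicts a rank bound. The automaton evaluates monotone circuits.

Earlier: `FormulaNegations` (path systems; `n / (log n) ^ 12` NOT gates in formulas, all inputs).
-/

set_option autoImplicit false

namespace Pool.Agent.Results.MP_027d00_lc.NotsOnSlices

open Pool.Agent.W953.SP Pool.Agent.W953.SR Pool.Agent.H541R2 Pool.Agent.H540R2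
  Pool.Agent.W953.FN

/-- the number of ones of an input -/
def ones {n : ℕ} (x : Fin n → Bool) : ℕ := (Finset.univ.filter (fun i => x i = true)).card

/-- the word with the tags `t` and the bits `x` is in `L` -/
def Word {Tag : Type} (L : Set (List (Tag × Bool))) {n : ℕ} (t : Fin n → Tag)
    (x : Fin n → Bool) : Prop :=
  List.ofFn (fun i => (t i, x i)) ∈ L

/-- `f` disagrees with `L` on some input with at least `k` and at most `k + U` ones -/
def Fails {Tag : Type} (L : Set (List (Tag × Bool))) {n : ℕ} (t : Fin n → Tag) (k U : ℕ)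
    (f : (Fin n → Bool) → Bool) : Prop :=
  ∃ x, k ≤ ones x ∧ ones x ≤ k + U ∧ ¬ (f x = true ↔ Word L t x)

/-- `L` is monotone in the bits for the tags `t` -/
def MonoFor {Tag : Type} (L : Set (List (Tag × Bool))) {n : ℕ} (t : Fin n → Tag) : Prop :=
  ∀ x y : Fin n → Bool, x ≤ y → Word L t x → Word L t y

/-- the function `2 ^ 42 D (log D + 6) ^ 8`, for `D + 1` -/
def q (D : ℕ) : ℕ := 2 ^ 42 * (D + 1) * (Nat.log 2 (D + 1) + 6) ^ 8

/-- `m (log m + 1) ^ 8` -/
def near (m : ℕ) : ℕ := m * (Nat.log 2 m + 1) ^ 8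

/-- One language of a two-way deterministic pushdown automaton with one head.

(1) For `M ≥ 1`, `5 M q(D) ≤ U ≤ n` and `45 M q(D) ^ 2 ≤ n` some tags `t` make `L` monotone, but for
no `k ≤ n - U` a circuit with at most `log M` NOT gates and `(nots + 1) 2 ^ depth < 4 ^ (D + 1)`, or a
formula with at most `(M - 2) / 5` NOT gates and less than `4 ^ (D + 1) / 2` leaves, agrees with `L`
on the inputs with `k` to `k + U` ones.

(2) For every `c` there is `C` such that the same holds for circuits of depth at most `c log n` with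
at most `log M` NOT gates and for formulas with at most `n ^ c` leaves and at most `(M - 2) / 5` NOT
gates if `M ≥ 1`, `M C near(log n + 1) ≤ U ≤ n` and `M C near(log n + 1) ^ 2 ≤ n`. -/
theorem result : ∃ (Tag : Type) (_ : Fintype Tag) (L : Set (List (Tag × Bool))), TwoDPDA L ∧
    (∀ D M U n : ℕ, 1 ≤ M → 5 * M * q D ≤ U → U ≤ n → 45 * M * q D ^ 2 ≤ n →
      ∃ t : Fin n → Tag, MonoFor L t ∧ ∀ k, k + U ≤ n →
        (∀ C : Circuit n, 2 ^ C.nots ≤ M → (C.nots + 1) * 2 ^ C.depth < 4 ^ (D + 1) →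
          Fails L t k U C.eval) ∧
        ∀ φ : Formula n, 5 * φ.nots + 2 ≤ M → 2 * φ.leaves < 4 ^ (D + 1) →
          Fails L t k U φ.eval) ∧
    ∀ c : ℕ, ∃ C : ℕ, ∀ M U n : ℕ, 1 ≤ M → M * C * near (Nat.log 2 n + 1) ≤ U → U ≤ n →
      M * C * near (Nat.log 2 n + 1) ^ 2 ≤ n →
      ∃ t : Fin n → Tag, MonoFor L t ∧ ∀ k, k + U ≤ n →
        (∀ C : Circuit n, 2 ^ C.nots ≤ M → C.depth ≤ c * Nat.log 2 n → Fails L t k U C.eval) ∧
        ∀ φ : Formula n, 5 * φ.nots + 2 ≤ M → φ.leaves ≤ n ^ c → Fails L t k U φ.eval := by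
  have main : ∀ D M U n : ℕ, 1 ≤ M → 5 * M * q D ≤ U → U ≤ n → 45 * M * q D ^ 2 ≤ n →
      ∃ t : Fin n → Pool.Agent.H257R4.TP.Tag, MonoFor Pool.Agent.H257R4.TP.LL t ∧
        ∀ k, k + U ≤ n →
        (∀ C : Circuit n, 2 ^ C.nots ≤ M → (C.nots + 1) * 2 ^ C.depth < 4 ^ (D + 1) →
          Fails Pool.Agent.H257R4.TP.LL t k U C.eval) ∧
        ∀ φ : Formula n, 5 * φ.nots + 2 ≤ M → 2 * φ.leaves < 4 ^ (D + 1) →
          Fails Pool.Agent.H257R4.TP.LL t k U φ.eval := by
    intro D M U n hM hU hUn hn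
    obtain ⟨t, h1, h2⟩ := Pool.Agent.W953.PD.pda_hard.{0} D M U n hM hU hUn hn
    refine ⟨t, fun x y hxy hx => h1 x y (fun i hi => ?_) hx, fun k hk => ⟨fun C hC1 hC2 => ?_,
      fun φ hφ1 hφ2 => ?_⟩⟩
    · have := hxy i
      rw [hi] at this
      exact top_le_iff.mp this
    · obtain ⟨p, p1, p2, p3⟩ := circuit_prog C
      obtain ⟨x, x1, x2, x3⟩ := h2 _ (ftTests (Fin n)) (ft_rank _) (ft_mono _) k hk p
        (p1.trans hC1) (lt_of_le_of_lt p2 hC2)
      exact ⟨x, x1, x2, fun h => x3 ((p3 x).trans h)⟩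
    · obtain ⟨p, p1, p2, p3⟩ := formula_prog φ
      obtain ⟨x, x1, x2, x3⟩ := h2 _ (ftTests (Fin n)) (ft_rank _) (ft_mono _) k hk p
        (p1.trans hφ1) (lt_of_le_of_lt p2 hφ2)
      exact ⟨x, x1, x2, fun h => x3 ((p3 x).trans h)⟩
  refine ⟨Pool.Agent.H257R4.TP.Tag, inferInstance, Pool.Agent.H257R4.TP.LL,
    ⟨Pool.Agent.H257R4.TP.St, Pool.Agent.H257R4.TP.Sy, inferInstance, inferInstance,
      Pool.Agent.H257R4.TP.del, .q0, {.acc}, fun w => Iff.rfl⟩, main, fun c => ?_⟩
  obtain ⟨C, hC⟩ := Pool.Agent.W953.PD.num_det (c + 1)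
  refine ⟨C + 2, fun M U n hM hU hUn hn => ?_⟩
  obtain ⟨D, d1, d2, d3⟩ := hC n
  have hnear : 1 ≤ near (Nat.log 2 n + 1) := by
    unfold near
    exact Nat.mul_pos (by omega) (Nat.pow_pos (by omega))
  have hMn : 2 * M ≤ n := by
    have h1 : M * (C + 2) * near (Nat.log 2 n + 1) ≤ n := hU.trans hUn
    have h2 : M * 2 * 1 ≤ M * (C + 2) * near (Nat.log 2 n + 1) :=
      Nat.mul_le_mul (Nat.mul_le_mul_left _ (by omega)) hnear
    omega
  have hn0 : n ≠ 0 := by omega
  obtain ⟨t, h1, h2⟩ := main D M U n hM (by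
      refine le_trans ?_ hU
      calc 5 * M * q D = M * (5 * W953.PT.vno D) := by
            show 5 * M * W953.PT.vno D = _
            ring
        _ ≤ M * (C * W953.PD.nl (Nat.log 2 n + 1)) := Nat.mul_le_mul_left _ d2
        _ ≤ M * ((C + 2) * W953.PD.nl (Nat.log 2 n + 1)) :=
            Nat.mul_le_mul_left _ (Nat.mul_le_mul_right _ (by omega))
        _ = M * (C + 2) * near (Nat.log 2 n + 1) := by
            show _ = M * (C + 2) * W953.PD.nl (Nat.log 2 n + 1)
            ring) hUn (by
      refine le_trans ?_ hn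
      calc 45 * M * q D ^ 2 = M * (45 * W953.PT.vno D ^ 2) := by
            show 45 * M * W953.PT.vno D ^ 2 = _
            ring
        _ ≤ M * (C * W953.PD.nl (Nat.log 2 n + 1) ^ 2) := Nat.mul_le_mul_left _ d3
        _ ≤ M * ((C + 2) * W953.PD.nl (Nat.log 2 n + 1) ^ 2) :=
            Nat.mul_le_mul_left _ (Nat.mul_le_mul_right _ (by omega))
        _ = M * (C + 2) * near (Nat.log 2 n + 1) ^ 2 := by
            show _ = M * (C + 2) * W953.PD.nl (Nat.log 2 n + 1) ^ 2
            ring)
  refine ⟨t, h1, fun k hk => ⟨fun C' hC1 hC2 => (h2 k hk).1 C' hC1 ?_,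
    fun φ hφ1 hφ2 => (h2 k hk).2 φ hφ1 ?_⟩⟩
  · refine lt_of_le_of_lt ?_ d1
    have e1 : C'.nots + 1 ≤ n := by
      have : C'.nots < 2 ^ C'.nots := Nat.lt_two_pow_self
      omega
    have e2 : 2 ^ C'.depth ≤ n ^ c := by
      calc 2 ^ C'.depth ≤ 2 ^ (c * Nat.log 2 n) := Nat.pow_le_pow_right (by norm_num) hC2
        _ = (2 ^ Nat.log 2 n) ^ c := by rw [← pow_mul, Nat.mul_comm]
        _ ≤ n ^ c := Nat.pow_le_pow_left (Nat.pow_log_le_self 2 hn0) c
    calc (C'.nots + 1) * 2 ^ C'.depth ≤ n * n ^ c := Nat.mul_le_mul e1 e2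
      _ = n ^ (c + 1) := by ring
  · refine lt_of_le_of_lt ?_ d1
    calc 2 * φ.leaves ≤ n * n ^ c := Nat.mul_le_mul (by omega) hφ2
      _ = n ^ (c + 1) := by ring

end Pool.Agent.Results.MP_027d00_lc.NotsOnSlices
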